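import Pool.Agent.H329R3.NU.Stmts
import Pool.Agent.H329R3.PM.Dist

/-!
# `TaskWGrad`: the space-time weak gradient
-/

open MeasureTheory Set Filter Topology
open scoped RealInnerProductSpace

namespace Pool.Agent.H191R3.NU

open Pool.Agent.H329R3.PM Pool.Agent.H329R3.NU

theorem taskWGrad : TaskWGrad := by
  intro hP hB κ ε w hκ hS ψ hψ hψc hψs e
  obtain ⟨-, -, -, hPm, ⟨B₁, hB₁⟩, hGm, ⟨B₂, hB₂⟩⟩ := hB κ ε w hκ hS
  have hPF := hP κ ε w hκ hS
  -- continuity of the derivative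
  have hd : Continuous fun p : E 3 × ℝ => fderiv ℝ ψ p (e, (0 : ℝ)) :=
    (hψ.continuous_fderiv (by norm_num)).clm_apply continuous_const
  have hdc : HasCompactSupport fun p : E 3 × ℝ => fderiv ℝ ψ p (e, (0 : ℝ)) := by
    have := hψc.fderiv (𝕜 := ℝ)
    exact this.comp_left (g := fun L : E 3 × ℝ →L[ℝ] ℝ => L (e, (0 : ℝ))) (by simp)
  have hdi : Integrable (fun p : E 3 × ℝ => fderiv ℝ ψ p (e, (0 : ℝ))) :=
    hd.integrable_of_hasCompactSupport hdc
  have hψi : Integrable ψ := hψ.continuous.integrable_of_hasCompactSupport hψc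
  have hout : ∀ p : E 3 × ℝ, p.2 ∉ Ioo (0 : ℝ) 1 → ψ p = 0 ∧ fderiv ℝ ψ p = 0 := by
    intro p hp
    have hp' : p ∉ tsupport ψ := fun h => hp (hψs h).2
    refine ⟨image_eq_zero_of_notMem_tsupport hp', ?_⟩
    have h1 : p ∉ tsupport (fderiv ℝ ψ) := fun h => hp' (tsupport_fderiv_subset ℝ h)
    exact image_eq_zero_of_notMem_tsupport h1
  have hmS : MeasurableSet (univ ×ˢ Ioo (0 : ℝ) 1 : Set (E 3 × ℝ)) :=
    MeasurableSet.univ.prod measurableSet_Ioo
  have hGae : ∀ᵐ p : E 3 × ℝ, p.2 ∈ Ioo (0 : ℝ) 1 → ‖GG κ w p‖ ≤ B₂ := by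
    have := (ae_restrict_iff' hmS).1 hB₂
    filter_upwards [this] with p hp h
    exact hp ⟨mem_univ _, h⟩
  -- integrability
  have i1 : Integrable (fun p : E 3 × ℝ =>
      cc * (∫ y : E 3, ‖p.1 - y‖ ^ (-(3 / 2) : ℝ) * uu κ w (y, p.2)) *
        fderiv ℝ ψ p (e, (0 : ℝ))) := by
    refine Integrable.mono' ((hdi.norm).const_mul (|cc| * B₁)) ?_ ?_
    · exact ((hPm.const_mul cc).mul hd.measurable).aestronglyMeasurable
    · refine Eventually.of_forall fun p => ?_
      by_cases hp : p.2 ∈ Ioo (0 : ℝ) 1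
      · rw [norm_mul, norm_mul, Real.norm_eq_abs, Real.norm_eq_abs]
        exact mul_le_mul_of_nonneg_right
          (mul_le_mul_of_nonneg_left (hB₁ p hp.1.le) (abs_nonneg _)) (norm_nonneg _)
      · rw [(hout p hp).2]
        simp
  have i2 : Integrable (fun p : E 3 × ℝ => ⟪GG κ w p, e⟫ * ψ p) := by
    refine Integrable.mono' ((hψi.norm).const_mul (B₂ * ‖e‖)) ?_ ?_
    · exact ((hGm.inner measurable_const).mul hψ.continuous.measurable).aestronglyMeasurable
    · filter_upwards [hGae] with p hp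
      by_cases hp2 : p.2 ∈ Ioo (0 : ℝ) 1
      · rw [norm_mul]
        refine mul_le_mul_of_nonneg_right ?_ (norm_nonneg _)
        exact (norm_inner_le_norm _ _).trans (mul_le_mul_of_nonneg_right (hp hp2) (norm_nonneg _))
      · rw [(hout p hp2).1]
        simp
  -- slices
  have hsl : ∀ᵐ t : ℝ, ∀ᵐ x : E 3, t ∈ Ioo (0 : ℝ) 1 → ‖GG κ w (x, t)‖ ≤ B₂ := by
    have hm : MeasurableSet {p : E 3 × ℝ | p.2 ∈ Ioo (0 : ℝ) 1 → ‖GG κ w (p.1, p.2)‖ ≤ B₂} := by
      have h1 : MeasurableSet {p : E 3 × ℝ | ‖GG κ w p‖ ≤ B₂} :=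
        measurableSet_le hGm.norm measurable_const
      have h2 : MeasurableSet {p : E 3 × ℝ | p.2 ∈ Ioo (0 : ℝ) 1} :=
        measurable_snd measurableSet_Ioo
      have h3 : {p : E 3 × ℝ | p.2 ∈ Ioo (0 : ℝ) 1 → ‖GG κ w (p.1, p.2)‖ ≤ B₂} =
          {p : E 3 × ℝ | p.2 ∈ Ioo (0 : ℝ) 1}ᶜ ∪ {p : E 3 × ℝ | ‖GG κ w p‖ ≤ B₂} := by
        ext p
        simp only [mem_ofPred_eq, mem_union, mem_compl_iff]
        tauto
      rw [h3]
      exact h2.compl.union h1
    exact (Measure.ae_ae_comm (μ := (volume : Measure (E 3))) (ν := (volume : Measure ℝ)) hm).1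
      (Measure.ae_ae_of_ae_prod hGae)
  have key : ∀ᵐ t : ℝ, ∫ x : E 3, cc * (∫ y : E 3, ‖x - y‖ ^ (-(3 / 2) : ℝ) * uu κ w (y, t)) *
        fderiv ℝ ψ (x, t) (e, (0 : ℝ)) = - ∫ x : E 3, ⟪GG κ w (x, t), e⟫ * ψ (x, t) := by
    filter_upwards [hsl] with t ht
    by_cases ht1 : t ∈ Ioo (0 : ℝ) 1
    · have hψt : ContDiff ℝ 1 fun x : E 3 => ψ (x, t) :=
        hψ.comp (contDiff_id.prodMk contDiff_const)
      have hψtc : HasCompactSupport fun x : E 3 => ψ (x, t) := by
        refine HasCompactSupport.intro (K := Prod.fst '' tsupport ψ)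
          (hψc.isCompact.image continuous_fst) fun x hx => ?_
        refine image_eq_zero_of_notMem_tsupport fun h => hx ⟨(x, t), h, rfl⟩
      have hf : ∀ x : E 3, HasGradientAt
          (fun x : E 3 => cc * ∫ y : E 3, ‖x - y‖ ^ (-(3 / 2) : ℝ) * uu κ w (y, t))
          (GG κ w (x, t)) x := (hPF t).2
      have hgr : gradient (fun x : E 3 => cc * ∫ y : E 3, ‖x - y‖ ^ (-(3 / 2) : ℝ) *
          uu κ w (y, t)) = fun x => GG κ w (x, t) := funext fun x => (hf x).gradient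
      have hli : LocallyIntegrable (fun x : E 3 => GG κ w (x, t)) := by
        have hmx : Measurable fun x : E 3 => GG κ w (x, t) :=
          hGm.comp (measurable_id.prodMk measurable_const)
        refine (locallyIntegrable_const (B₂ : ℝ)).mono hmx.aestronglyMeasurable ?_
        filter_upwards [ht] with x hx
        exact (hx ht1).trans (le_abs_self _)
      have hmain := dist_grad (fun x => (hf x).differentiableAt) (by rw [hgr]; exact hli)
        (fun x : E 3 => ψ (x, t)) hψt hψtc e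
      rw [hgr] at hmain
      have hfd : ∀ x : E 3, fderiv ℝ (fun x : E 3 => ψ (x, t)) x e =
          fderiv ℝ ψ (x, t) (e, (0 : ℝ)) := by
        intro x
        have h1 : HasFDerivAt ψ (fderiv ℝ ψ (x, t)) (x, t) :=
          (hψ.differentiable (by norm_num) (x, t)).hasFDerivAt
        have h0 : HasFDerivAt (fun z : E 3 => (z, t)) (ContinuousLinearMap.inl ℝ (E 3) ℝ) x :=
          hasFDerivAt_prodMk_left x t
        have h2 := HasFDerivAt.comp (g := ψ) x h1 h0
        have h3 : fderiv ℝ (fun x : E 3 => ψ (x, t)) x =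
            (fderiv ℝ ψ (x, t)).comp (ContinuousLinearMap.inl ℝ (E 3) ℝ) := h2.fderiv
        rw [h3]
        simp
      simp only [hfd] at hmain
      exact hmain
    · have h1 : ∀ x : E 3, ψ (x, t) = 0 := fun x => (hout (x, t) ht1).1
      have h2 : ∀ x : E 3, fderiv ℝ ψ (x, t) = 0 := fun x => (hout (x, t) ht1).2
      simp [h1, h2]
  have e1 := integral_prod_symm (μ := (volume : Measure (E 3))) (ν := (volume : Measure ℝ)) _ i1
  have e2 := integral_prod_symm (μ := (volume : Measure (E 3))) (ν := (volume : Measure ℝ)) _ i2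
  refine e1.trans ?_
  rw [show ∫ p : E 3 × ℝ, ⟪GG κ w p, e⟫ * ψ p = _ from e2, ← integral_neg]
  exact integral_congr_ae key

end Pool.Agent.H191R3.NU
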